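import Pool.Agent.Lib.MP_753083_pr.Hit4

set_option autoImplicit false
open Filter Topology
open Pool.Agent.Lib.MP_753083_pr

namespace Pool.Agent.Results.MP_753083_pr.HittingTime

theorem result (k : ℕ) (α : Fin k → ℝ) (h0 : ∀ i, 0 < α i) (h1 : ∑ i, α i = 1) :
    Tendsto (fun n : ℕ => probHit n α) atTop (𝓝 1) :=
  hitting k α h0 h1

end Pool.Agent.Results.MP_753083_pr.HittingTime
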