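import Pool.Agent.Lib.MP_753083_pr.Main

set_option autoImplicit false
open Filter Topology
open Pool.Agent.Lib.MP_753083_pr

namespace Pool.Agent.Results.MP_753083_pr.SharpThreshold

theorem result (k : ℕ) (α : Fin k → ℝ) (h0 : ∀ i, 0 < α i) (h1 : ∑ i, α i = 1) (ω : ℕ → ℝ)
    (hq : ∀ᶠ n : ℕ in atTop, 0 ≤ (⨅ i, α i)⁻¹ * ((Real.log n + ω n) / n) ∧
      (⨅ i, α i)⁻¹ * ((Real.log n + ω n) / n) ≤ 1) :
    Tendsto (fun n : ℕ => probAll n ((⨅ i, α i)⁻¹ * ((Real.log n + ω n) / n)) α) atTop (𝓝 1) ↔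
      Tendsto (fun n : ℕ => ω n - Real.log (Real.log n)) atTop atTop :=
  main k α h0 h1 ω hq

end Pool.Agent.Results.MP_753083_pr.SharpThreshold
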